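import Mathlib

namespace Pool.Agent.Results.MP_45e6b1_al.No

open Equiv MonoidAlgebra

section
variable (F : Type) [Field F] {n : ℕ} (q : Composition n)

open Classical in
/-- the Solomon descent element -/
noncomputable def Xi : MonoidAlgebra F (Perm (Fin n)) :=
  ∑ σ : Perm (Fin n) with
    ∀ i j : Fin n, j.val = i.val + 1 → σ j < σ i → ∃ k, q.sizeUpTo k = j.val, single σ 1

/-- the one-sided ideal it generates -/
noncomputable abbrev X : Ideal (MonoidAlgebra F (Perm (Fin n))) := Ideal.span {Xi F q}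

/-- the action of a permutation -/
noncomputable def act (g : Perm (Fin n)) (x : X F q) : X F q :=
  (single g 1 : MonoidAlgebra F (Perm (Fin n))) • x

/-- isomorphic to the contragredient dual -/
def SelfDual : Prop :=
  ∃ e : X F q ≃ₗ[F] Module.Dual F (X F q), ∀ g x y, e (act F q g x) y = e x (act F q g⁻¹ y)

/-- a direct summand of a permutation module -/
def TrivialSource : Prop :=
  ∃ (Ω : Type) (_ : MulAction (Perm (Fin n)) Ω) (i : X F q →ₗ[F] (Ω →₀ F))
    (p : (Ω →₀ F) →ₗ[F] X F q),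
    (∀ g x, i (act F q g x) = (i x).mapDomain (g • ·)) ∧
    (∀ (g : Perm (Fin n)) u, p (u.mapDomain (g • ·)) = act F q g (p u)) ∧ ∀ x, p (i x) = x

end

theorem perm_lemma {F G Ω : Type} [Field F] [Group G] [MulAction G Ω] (K : Finset G)
    (h1 : 1 ∈ K) (hm : ∀ g ∈ K, ∀ h ∈ K, g * h ∈ K) (hi : ∀ g ∈ K, g⁻¹ ∈ K) (s : Ω →₀ F)
    (hs : ∀ g ∈ K, ∀ w, s (g • w) = s w) (h0 : ∀ g ∈ K, g ≠ 1 → ∀ w, g • w = w → s w = 0) :
    ∃ t : Ω →₀ F, s = ∑ g ∈ K, t.mapDomain (g • ·) := by
  classical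
  let r : Setoid Ω := ⟨fun a b => ∃ g ∈ K, b = g • a, ⟨fun a => ⟨1, h1, by simp⟩,
    fun ⟨g, hg, e⟩ => ⟨g⁻¹, hi g hg, by simp [e]⟩,
    fun ⟨g, hg, e⟩ ⟨h, hh, e'⟩ => ⟨h * g, hm h hh g hg, by rw [e', e, mul_smul]⟩⟩⟩
  refine ⟨s.filter fun w => w = (Quotient.mk r w).out, ?_⟩
  ext w
  have key : ∀ (g : G) (t : Ω →₀ F), t.mapDomain (g • ·) w = t (g⁻¹ • w) := fun g t => by
    have := Finsupp.mapDomain_apply (MulAction.injective g) t (g⁻¹ • w)
    simpa using this
  rw [Finsupp.finsetSum_apply]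
  simp only [key, Finsupp.filter_apply]
  by_cases hw : s w = 0
  · rw [hw, Finset.sum_eq_zero]
    intro g hg
    rw [hs _ (hi g hg), hw, ite_self]
  obtain ⟨g0, hg0, e0⟩ : r (Quotient.mk r w).out w := Quotient.exact (Quotient.out_eq _)
  have hq : ∀ g ∈ K, Quotient.mk r (g⁻¹ • w) = Quotient.mk r w := fun g hg =>
    Quotient.sound ⟨g, hg, by simp⟩
  rw [Finset.sum_eq_single g0]
  · rw [if_pos, hs _ (hi _ hg0)]
    rw [hq g0 hg0, inv_smul_eq_iff]
    exact e0
  · intro g hg hne
    rw [if_neg]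
    rw [hq g hg]
    intro e
    refine hw (h0 (g0 * g⁻¹) (hm _ hg0 _ (hi g hg)) (fun h => hne (mul_inv_eq_one.1 h).symm) w ?_)
    rw [mul_smul, e]
    exact e0.symm
  · exact fun h => absurd hg0 h

abbrev G := Perm (Fin 4)

def q0 : Composition 4 := ⟨[2, 1, 1], by decide, rfl⟩

variable {F : Type} [Field F]

theorem coeff_Xi (σ : G) : (Xi F q0).coeff σ = if σ 0 < σ 1 then 1 else 0 := by
  classical
  have h : ∀ j : Fin 4, (∃ k, q0.sizeUpTo k = j.val) ↔ j ≠ 1 := by
    intro j
    constructor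
    · rintro ⟨k, hk⟩ rfl
      rcases k with _ | _ | _ | k <;> simp [Composition.sizeUpTo, q0] at hk
    · intro hj
      fin_cases j
      · exact ⟨0, rfl⟩
      · exact absurd rfl hj
      · exact ⟨1, rfl⟩
      · exact ⟨2, rfl⟩
  have h2 : ∀ σ : G, (∀ i j : Fin 4, j.val = i.val + 1 → σ j < σ i → j ≠ 1) ↔ σ 0 < σ 1 := by
    decide +kernel
  simp only [Xi, h, h2, coeff_sum, coeff_single, Finsupp.finsetSum_apply, Finsupp.single_apply]
  simp

theorem coeff_act (g σ : G) (x : X F q0) : (act F q0 g x).1.coeff σ = x.1.coeff (g⁻¹ * σ) := by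
  show (single g (1 : F) * x.1).coeff σ = _
  rw [coeff_single_mul_apply, one_mul]

theorem ann [CharP F 2] (l : List G)
    (h : ∀ τ : G, (l.map fun σ => if (τ * σ) 0 < (τ * σ) 1 then 1 else 0).sum % 2 = 0)
    (x : X F q0) : (l.map x.1.coeff).sum = 0 := by
  obtain ⟨x, hx⟩ := x
  obtain ⟨a, rfl⟩ := Ideal.mem_span_singleton'.1 hx
  show (l.map (a * Xi F q0).coeff).sum = 0
  clear hx
  induction a using MonoidAlgebra.induction_linear with
  | zero =>
    rw [zero_mul]
    exact List.sum_map_zero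
  | add a b ha hb =>
    rw [add_mul, coeff_add]
    show (l.map fun σ => (a * Xi F q0).coeff σ + (b * Xi F q0).coeff σ).sum = 0
    rw [List.sum_map_add]
    exact (congrArg₂ (· + ·) ha hb).trans (add_zero _)
  | single τ r =>
    show (l.map fun σ => (single τ r * Xi F q0).coeff σ).sum = 0
    simp only [coeff_single_mul_apply, coeff_Xi]
    rw [List.sum_map_mul_left]
    have := (CharP.cast_eq_zero_iff F 2 _).2 (Nat.dvd_of_mod_eq_zero (h τ⁻¹))
    rw [Nat.cast_list_sum, List.map_map] at this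
    convert mul_zero r
    refine Eq.trans ?_ this
    congr 2
    ext σ
    simp only [Function.comp]
    split_ifs <;> simp

def W : List G := [1, swap 1 2, swap 1 3, swap 0 1 * swap 1 2,
  swap 0 1 * swap 1 3, swap 0 2 * swap 1 3]

noncomputable def fn (l : List G) : Module.Dual F (X F q0) where
  toFun x := (l.map x.1.coeff).sum
  map_add' x y := by
    show (l.map fun σ => x.1.coeff σ + y.1.coeff σ).sum = _
    rw [List.sum_map_add]
  map_smul' c x := by
    show (l.map fun σ => c * x.1.coeff σ).sum = c * _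
    rw [List.sum_map_mul_left]

noncomputable def xi : X F q0 := ⟨Xi F q0, Ideal.subset_span rfl⟩

theorem not_sd [CharP F 2] : ¬ SelfDual F q0 := by
  rintro ⟨e, he⟩
  have inv : ∀ l : List G, (∀ g : G, Perm.sign g = 1 → ∀ τ : G,
      ((l.map (g * ·) ++ l).map fun σ => if (τ * σ) 0 < (τ * σ) 1 then 1 else 0).sum % 2 = 0) →
      ∀ σ, (e.symm (fn l)).1.coeff σ = (e.symm (fn l)).1.coeff 1 := by
    intro l hl
    have a1 : ∀ g : G, Perm.sign g = 1 → (e.symm (fn l)).1.coeff g = (e.symm (fn l)).1.coeff 1 := by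
      intro g hg
      have : act F q0 g (e.symm (fn l)) = e.symm (fn l) := by
        apply e.injective
        ext y
        rw [he, e.apply_symm_apply]
        have := ann _ (hl g hg) y
        rw [List.map_append, List.sum_append, CharTwo.add_eq_zero, List.map_map] at this
        show (l.map (act F q0 g⁻¹ y).1.coeff).sum = (l.map y.1.coeff).sum
        rw [← this]
        congr 2
        ext σ
        rw [coeff_act, inv_inv]
        rfl
      rw [← this, coeff_act, this]
      simp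
    intro σ
    rcases Int.units_eq_one_or (Perm.sign σ) with h | h
    · exact a1 σ h
    · have := ann [σ * swap 2 3, σ] (by clear h; revert σ; decide +kernel) (e.symm (fn l))
      simp only [List.map_cons, List.map_nil, List.sum_cons, List.sum_nil, add_zero,
        CharTwo.add_eq_zero] at this
      rw [← this]
      exact a1 _ (by simp [h])
  have i1 := inv [1, swap 0 1] (by decide +kernel)
  have i2 := inv W (by decide +kernel)
  set x1 := e.symm (fn [1, swap 0 1]) with hx1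
  set x2 := e.symm (fn W) with hx2
  have rel : x1.1.coeff 1 • x2 = x2.1.coeff 1 • x1 := by
    ext σ
    show x1.1.coeff 1 * x2.1.coeff σ = x2.1.coeff 1 * x1.1.coeff σ
    rw [i1 σ, i2 σ, mul_comm]
  have rel2 := congrArg e rel
  rw [map_smul, map_smul, hx1, hx2, e.apply_symm_apply, e.apply_symm_apply, ← hx1, ← hx2] at rel2
  have two : (2 : F) = 0 := CharTwo.two_eq_zero
  have v1 : fn [1, swap 0 1] (xi (F := F)) = 1 := by
    simp [fn, xi, coeff_Xi]
  have v2 : fn [1, swap 0 1] (act F q0 (swap 0 1) xi) = 1 := by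
    show ([1, swap 0 1].map (act F q0 (swap 0 1) xi).1.coeff).sum = 1
    simp [coeff_act, xi, coeff_Xi]
  have v3 : fn W (xi (F := F)) = 6 := by
    simp [fn, xi, coeff_Xi, W, swap_apply_def]
    norm_num
  have v4 : fn W (act F q0 (swap 0 1) xi) = 5 := by
    show (W.map (act F q0 (swap 0 1) xi).1.coeff).sum = 5
    simp [coeff_act, xi, coeff_Xi, W, swap_apply_def]
    norm_num
  have e1 := LinearMap.congr_fun rel2 xi
  have e2 := LinearMap.congr_fun rel2 (act F q0 (swap 0 1) xi)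
  simp only [LinearMap.smul_apply, smul_eq_mul, v1, v2, v3, v4] at e1 e2
  have z : x1 = 0 := by
    ext σ
    rw [i1 σ]
    show _ = (0 : F)
    linear_combination e1 - e2
  rw [hx1, LinearEquiv.symm_apply_eq, map_zero] at z
  rw [z] at v1
  simp at v1

def K : Finset G := {1, swap 0 1 * swap 2 3, swap 0 2 * swap 1 3, swap 0 3 * swap 1 2}

theorem not_ts [CharP F 2] : ¬ TrivialSource F q0 := by
  rintro ⟨Ω, _, i, p, hi, hp, hpi⟩
  have key : ∀ (g : G) (t : Ω →₀ F) (w), t.mapDomain (g • ·) (g • w) = t w := fun g t w =>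
    Finsupp.mapDomain_apply (MulAction.injective g) t w
  let T : X F q0 := act F q0 (swap 0 3 * swap 1 2) xi + xi
  have hT : ∀ g τ : G, (∀ σ : G, (τ⁻¹ * (g⁻¹ * σ)) 0 < (τ⁻¹ * (g⁻¹ * σ)) 1 ↔
      ¬ (τ⁻¹ * σ) 0 < (τ⁻¹ * σ) 1) →
      ∀ σ, (act F q0 g (act F q0 τ xi) + act F q0 τ xi).1.coeff σ = 1 := by
    intro g τ h σ
    show (act F q0 g (act F q0 τ xi)).1.coeff σ + (act F q0 τ xi).1.coeff σ = 1
    simp only [coeff_act, xi, coeff_Xi, h]
    split_ifs <;> simp
  have hT1 : ∀ σ, T.1.coeff σ = 1 := by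
    intro σ
    rw [← hT (swap 0 3 * swap 1 2) 1 (by decide +kernel) σ]
    show (act F q0 _ xi).1.coeff σ + xi.1.coeff σ =
      (act F q0 _ (act F q0 1 xi)).1.coeff σ + (act F q0 1 xi).1.coeff σ
    simp [coeff_act]
  have hTg : ∀ g, act F q0 g T = T := fun g => by
    ext σ
    rw [coeff_act, hT1, hT1]
  obtain ⟨t, ht⟩ := perm_lemma K (by decide +kernel) (by decide +kernel) (by decide +kernel) (i T)
    (fun g _ w => by rw [← key g (i T) w, ← hi, hTg]) (by
      intro g hg hne w hw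
      obtain ⟨τ, hτ⟩ : ∃ τ : G, ∀ σ : G, (τ⁻¹ * (g⁻¹ * σ)) 0 < (τ⁻¹ * (g⁻¹ * σ)) 1 ↔
          ¬ (τ⁻¹ * σ) 0 < (τ⁻¹ * σ) 1 := by
        clear hw
        revert g
        decide +kernel
      have : T = act F q0 g (act F q0 τ xi) + act F q0 τ xi := by
        ext σ
        rw [hT1, hT g τ hτ]
      rw [this, map_add, hi, Finsupp.add_apply]
      nth_rewrite 1 [← hw]
      rw [key, CharTwo.add_self_eq_zero])
  have h1 := congrArg (fun u => (p u).1.coeff 1) ht
  simp only [hpi, hT1, map_sum, hp] at h1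
  have h2 := ann [1, swap 0 1 * swap 2 3, swap 0 2 * swap 1 3, swap 0 3 * swap 1 2]
    (by decide +kernel) (p t)
  rw [K, Finset.sum_insert (by decide +kernel), Finset.sum_insert (by decide +kernel),
    Finset.sum_pair (by decide +kernel)] at h1
  have h3 : (1 : F) = (act F q0 1 (p t)).1.coeff 1 + ((act F q0 (swap 0 1 * swap 2 3) (p t)).1.coeff 1 +
      ((act F q0 (swap 0 2 * swap 1 3) (p t)).1.coeff 1 +
        (act F q0 (swap 0 3 * swap 1 2) (p t)).1.coeff 1)) := h1
  simp only [coeff_act, mul_one] at h3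
  rw [show (swap 0 1 * swap 2 3 : G)⁻¹ = swap 0 1 * swap 2 3 by decide +kernel,
    show (swap 0 2 * swap 1 3 : G)⁻¹ = swap 0 2 * swap 1 3 by decide +kernel,
    show (swap 0 3 * swap 1 2 : G)⁻¹ = swap 0 3 * swap 1 2 by decide +kernel, inv_one] at h3
  simp only [List.map_cons, List.map_nil, List.sum_cons, List.sum_nil, add_zero] at h2
  exact one_ne_zero (h3.trans h2)

theorem result (F : Type) [Field F] [CharP F 2] :
    ∃ q : Composition 4, q.blocks = [2, 1, 1] ∧ ¬ SelfDual F q ∧ ¬ TrivialSource F q :=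
  ⟨q0, rfl, not_sd, not_ts⟩

end Pool.Agent.Results.MP_45e6b1_al.No
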